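import Pool.Agent.N483.KM.StmX
import Pool.Agent.N383.KM.Vol
import Pool.Agent.H212R2.KLS.T1

/-!
# Project KM (helper483), extension X: from the exponential tilts to log-concave factors

By helper711.
-/

set_option autoImplicit false
set_option linter.unusedSectionVars false

namespace Pool.Agent.N711.KM

open MeasureTheory Set Filter Topology
open scoped ENNReal InnerProductSpace
open Pool.Agent.N483.KM
open Pool.Agent.R754.KG (E)
open Pool.Agent.Y506.PV (CcW ind LCn)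
open Pool.Agent.Y506.RG (EW VW Adm)
open Pool.Agent.N383.KMW (exp_int)

/-! ### Separation of two log-concave functions -/

theorem lc_log {d : ℕ} {f : E d → ℝ} (hf : LCn f) {x y : E d} {t : ℝ} (h0 : 0 < t) (h1 : t < 1)
    (hx : 0 < f x) (hy : 0 < f y) : 0 < f ((1 - t) • x + t • y) ∧
      (1 - t) * Real.log (f x) + t * Real.log (f y) ≤ Real.log (f ((1 - t) • x + t • y)) := by
  have h := hf x y t h0 h1
  have h2 : 0 < f x ^ (1 - t) * f y ^ t := by positivity
  refine ⟨lt_of_lt_of_le h2 h, ?_⟩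
  have h5 := Real.log_le_log h2 h
  rwa [Real.log_mul (by positivity) (by positivity), Real.log_rpow hx, Real.log_rpow hy] at h5

theorem sandwich {d : ℕ} {m φ : E d → ℝ} {S c : ℝ} (hS : 0 < S) (hm0 : ∀ t, 0 ≤ m t)
    (hφ0 : ∀ t, 0 ≤ φ t) (hm : LCn m) (hφ : LCn φ) (hle : ∀ t, m t * φ t ≤ S) {B : Set (E d)}
    (hBo : IsOpen B) {t₁ : E d} (ht : t₁ ∈ B) (hc : 0 < c) (hB : ∀ t ∈ B, 0 < φ t ∧ c ≤ m t) :
    ∃ (a : E d) (b : ℝ), (∀ t, m t ≤ Real.exp (b + ⟪a, t⟫_ℝ)) ∧
      ∀ t, φ t * Real.exp (b + ⟪a, t⟫_ℝ) ≤ S := by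
  obtain ⟨A, hA⟩ : ∃ A : Set (E d × ℝ), A = {z | 0 < m z.1 ∧ z.2 ≤ Real.log (m z.1)} := ⟨_, rfl⟩
  obtain ⟨C, hC⟩ : ∃ C : Set (E d × ℝ), C = {z | 0 < φ z.1 ∧
    Real.log S - Real.log (φ z.1) < z.2} := ⟨_, rfl⟩
  have hAc : Convex ℝ A := by
    rw [hA]
    intro z hz z' hz' a b ha hb hab
    rcases ha.eq_or_lt with h | ha
    · rw [← h, zero_add] at hab
      rw [← h, hab]; simpa using hz'
    rcases hb.eq_or_lt with h | hb
    · rw [← h, add_zero] at hab
      rw [← h, hab]; simpa using hz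
    have ha' : a = 1 - b := by linarith
    rw [ha']
    have hb1 : b < 1 := by linarith
    obtain ⟨h1, h2⟩ := lc_log hm hb hb1 hz.1 hz'.1
    refine ⟨h1, ?_⟩
    change (1 - b) * z.2 + b * z'.2 ≤ Real.log (m ((1 - b) • z.1 + b • z'.1))
    have h3 := mul_le_mul_of_nonneg_left hz.2 (by linarith : 0 ≤ 1 - b)
    have h4 := mul_le_mul_of_nonneg_left hz'.2 hb.le
    linarith
  have hCc : Convex ℝ C := by
    rw [hC]
    intro z hz z' hz' a b ha hb hab
    rcases ha.eq_or_lt with h | ha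
    · rw [← h, zero_add] at hab
      rw [← h, hab]; simpa using hz'
    rcases hb.eq_or_lt with h | hb
    · rw [← h, add_zero] at hab
      rw [← h, hab]; simpa using hz
    have ha' : a = 1 - b := by linarith
    rw [ha']
    have hb1 : b < 1 := by linarith
    obtain ⟨h1, h2⟩ := lc_log hφ hb hb1 hz.1 hz'.1
    refine ⟨h1, ?_⟩
    change Real.log S - Real.log (φ ((1 - b) • z.1 + b • z'.1)) < (1 - b) * z.2 + b * z'.2
    have h3 := mul_lt_mul_of_pos_left hz.2 (by linarith : 0 < 1 - b)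
    have h4 := mul_lt_mul_of_pos_left hz'.2 hb
    linarith
  have hdis : Disjoint (interior A) C := by
    rw [Set.disjoint_left]
    intro z hz hz'
    have h1 := interior_subset hz
    rw [hA] at h1
    rw [hC] at hz'
    obtain ⟨h1, h2⟩ := h1
    obtain ⟨h3, h4⟩ := hz'
    have h5 := Real.log_le_log (mul_pos h1 h3) (hle z.1)
    rw [Real.log_mul h1.ne' h3.ne'] at h5
    linarith
  have hint : ∀ y < Real.log c, ((t₁, y) : E d × ℝ) ∈ interior A := by
    intro y hy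
    rw [mem_interior_iff_mem_nhds]
    have h1 : ∀ᶠ z : E d × ℝ in 𝓝 (t₁, y), z.1 ∈ B ∧ z.2 < Real.log c := by
      refine Filter.Eventually.and ?_ ?_
      · exact continuous_fst.continuousAt.eventually (hBo.mem_nhds ht)
      · exact continuous_snd.continuousAt.eventually (gt_mem_nhds hy)
    filter_upwards [h1] with z hz
    have h2 := (hB z.1 hz.1).2
    rw [hA]
    exact ⟨lt_of_lt_of_le hc h2, hz.2.le.trans (Real.log_le_log hc h2)⟩
  obtain ⟨f, u, hf1, hf2⟩ := geometric_hahn_banach_open hAc.interior isOpen_interior hCc hdis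
  have hf3 : ∀ z ∈ A, f z ≤ u := by
    intro z hz
    have h1 : z ∈ closure (interior A) := by
      rw [hAc.closure_interior_eq_closure_of_nonempty_interior
        ⟨_, hint (Real.log c - 1) (by linarith)⟩]
      exact subset_closure hz
    have h2 : closure (interior A) ⊆ {z | f z ≤ u} :=
      closure_minimal (fun a ha => (hf1 a ha).le) (isClosed_le f.continuous continuous_const)
    exact h2 h1
  have hdec : ∀ (t : E d) (y : ℝ), f (t, y) = f (t, 0) + y * f (0, 1) := by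
    intro t y
    have e1 : ((t, y) : E d × ℝ) = (t, 0) + y • (0, 1) := by
      ext <;> simp
    rw [e1, map_add, map_smul, smul_eq_mul]
  obtain ⟨α, hα⟩ : ∃ α, α = f (0, 1) := ⟨_, rfl⟩
  have hα0 : 0 < α := by
    by_contra hcon
    push Not at hcon
    have h1 := hf1 _ (hint (Real.log c - 1) (by linarith))
    obtain ⟨y, hy⟩ : ∃ y, y = max (Real.log c) (Real.log S - Real.log (φ t₁) + 1) := ⟨_, rfl⟩
    have h2 := hf2 (t₁, y) (by
      rw [hC]
      refine ⟨(hB t₁ ht).1, ?_⟩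
      rw [hy]
      exact lt_of_lt_of_le (by linarith) (le_max_right _ _))
    rw [hdec, ← hα] at h1 h2
    have h3 : Real.log c ≤ y := by rw [hy]; exact le_max_left _ _
    have h4 : (y - (Real.log c - 1)) * α ≤ 0 :=
      mul_nonpos_of_nonneg_of_nonpos (by linarith) hcon
    linarith
  obtain ⟨a, ha⟩ : ∃ a : E d, ∀ t, ⟪a, t⟫_ℝ = -(f (t, 0)) / α := by
    refine ⟨(InnerProductSpace.toDual ℝ (E d)).symm
      (-((1 / α) • f.comp (ContinuousLinearMap.inl ℝ (E d) ℝ))), fun t => ?_⟩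
    rw [InnerProductSpace.toDual_symm_apply]
    have h3 : (-((1 / α) • f.comp (ContinuousLinearMap.inl ℝ (E d) ℝ))) t =
        -((1 / α) * f (t, 0)) := rfl
    rw [h3]
    ring
  refine ⟨a, u / α, fun t => ?_, fun t => ?_⟩
  · rcases (hm0 t).eq_or_lt with h | h
    · rw [← h]
      positivity
    · have h1 := hf3 (t, Real.log (m t)) (by rw [hA]; exact ⟨h, le_rfl⟩)
      rw [hdec, ← hα] at h1
      have h2 : Real.log (m t) ≤ u / α + ⟪a, t⟫_ℝ := by
        rw [ha, ← add_div, le_div_iff₀ hα0]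
        linarith
      calc m t = Real.exp (Real.log (m t)) := (Real.exp_log h).symm
        _ ≤ _ := Real.exp_le_exp.2 h2
  · rcases (hφ0 t).eq_or_lt with h | h
    · rw [← h, zero_mul]
      exact hS.le
    · have h1 : u ≤ f (t, 0) + (Real.log S - Real.log (φ t)) * α := by
        refine le_of_forall_pos_le_add fun ε hε => ?_
        have h2 := hf2 (t, Real.log S - Real.log (φ t) + ε / α) (by
          rw [hC]
          refine ⟨h, ?_⟩
          have : 0 < ε / α := div_pos hε hα0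
          change Real.log S - Real.log (φ t) < Real.log S - Real.log (φ t) + ε / α
          linarith)
        rw [hdec, ← hα] at h2
        have h3 : (Real.log S - Real.log (φ t) + ε / α) * α =
            (Real.log S - Real.log (φ t)) * α + ε := by
          field_simp
        linarith
      have h2 : u / α + ⟪a, t⟫_ℝ ≤ Real.log S - Real.log (φ t) := by
        rw [ha, ← add_div, div_le_iff₀ hα0]
        linarith
      calc φ t * Real.exp (u / α + ⟪a, t⟫_ℝ) ≤ φ t * Real.exp (Real.log S - Real.log (φ t)) :=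
            mul_le_mul_of_nonneg_left (Real.exp_le_exp.2 h2) h.le
        _ = S := by
            rw [Real.exp_sub, Real.exp_log hS, Real.exp_log h]
            field_simp

/-! ### Sections of weights -/

section sec

variable {N d n : ℕ}

theorem dec (h0 : S_LWD) (e : (E N × E d) ≃ₗ[ℝ] E n) {w : E n → ℝ} (hw : LW w) :
    ∃ C b : ℝ, 0 < C ∧ 0 < b ∧
      ∀ (x : E N) (t : E d), w (e (x, t)) ≤ C * Real.exp (-(b * ‖x‖)) := by
  obtain ⟨C, c, hC, hc, hb⟩ := h0 n w hw
  let e' : (E N × E d) ≃L[ℝ] E n := e.toContinuousLinearEquiv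
  obtain ⟨K, hK, hK1⟩ : ∃ K : ℝ, 0 < K ∧ ∀ (x : E N) (t : E d), ‖x‖ ≤ K * ‖e (x, t)‖ := by
    refine ⟨‖(e'.symm : E n →L[ℝ] E N × E d)‖ + 1, by positivity, fun x t => ?_⟩
    have h1 : ‖((x, t) : E N × E d)‖ ≤ ‖(e'.symm : E n →L[ℝ] E N × E d)‖ * ‖e (x, t)‖ := by
      have h3 := (e'.symm : E n →L[ℝ] E N × E d).le_opNorm (e (x, t))
      have h4 : (e'.symm : E n →L[ℝ] E N × E d) (e (x, t)) = (x, t) := e'.symm_apply_apply (x, t)
      rwa [h4] at h3
    have h2 : ‖x‖ ≤ ‖((x, t) : E N × E d)‖ := norm_fst_le (x, t)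
    nlinarith [norm_nonneg (e (x, t))]
  refine ⟨C, c / K, hC, by positivity, fun x t => (hb _).trans
    (mul_le_mul_of_nonneg_left (Real.exp_le_exp.2 (neg_le_neg ?_)) hC.le)⟩
  have h1 := hK1 x t
  rw [div_mul_eq_mul_div, div_le_iff₀ hK]
  nlinarith

theorem e_cont (e : (E N × E d) ≃ₗ[ℝ] E n) (t : E d) : Continuous fun x : E N => e (x, t) :=
  e.toContinuousLinearEquiv.continuous.comp (continuous_id.prodMk continuous_const)

theorem sec_meas (e : (E N × E d) ≃ₗ[ℝ] E n) {w : E n → ℝ} (hw : LW w) (t : E d) :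
    Measurable fun x : E N => w (e (x, t)) := hw.adm.meas.comp (e_cont e t).measurable

theorem sec_int (h0 : S_LWD) (e : (E N × E d) ≃ₗ[ℝ] E n) {w : E n → ℝ} (hw : LW w) (t : E d) :
    Integrable fun x : E N => w (e (x, t)) := by
  obtain ⟨C, b, hC, hb, hdec⟩ := dec h0 e hw
  refine Integrable.mono' ((exp_int N hb).const_mul C) (sec_meas e hw t).aestronglyMeasurable
    (Eventually.of_forall fun x => ?_)
  rw [Real.norm_of_nonneg (hw.adm.nonneg _)]
  exact hdec x t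

theorem sec_bdd (h0 : S_LWD) (e : (E N × E d) ≃ₗ[ℝ] E n) {w : E n → ℝ} (hw : LW w) :
    ∃ M : ℝ, ∀ t : E d, ∫ x : E N, w (e (x, t)) ≤ M := by
  obtain ⟨C, b, hC, hb, hdec⟩ := dec h0 e hw
  exact ⟨∫ x : E N, C * Real.exp (-(b * ‖x‖)), fun t =>
    integral_mono (sec_int h0 e hw t) ((exp_int N hb).const_mul C) fun x => hdec x t⟩

theorem quad_exp {b : ℝ} (hb : 0 < b) {r : ℝ} (hr : 0 ≤ r) : (1 + r ^ 2) * Real.exp (-(b * r)) ≤
    (1 + 8 / b ^ 2) * Real.exp (-(b / 2 * r)) := by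
  have h1 := Real.quadratic_le_exp_of_nonneg (show 0 ≤ b / 2 * r by positivity)
  have h2 : 1 + r ^ 2 ≤ (1 + 8 / b ^ 2) * Real.exp (b / 2 * r) := by
    have h3 : (1 + 8 / b ^ 2) * (1 + (b / 2 * r) ^ 2 / 2) ≤
        (1 + 8 / b ^ 2) * Real.exp (b / 2 * r) := by
      refine mul_le_mul_of_nonneg_left ?_ (by positivity)
      have : 0 ≤ b / 2 * r := by positivity
      linarith
    have h4 : (1 + 8 / b ^ 2) * (1 + (b / 2 * r) ^ 2 / 2) =
        1 + r ^ 2 + (8 / b ^ 2 + b ^ 2 * r ^ 2 / 8) := by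
      field_simp
      ring
    have h5 : 0 ≤ 8 / b ^ 2 + b ^ 2 * r ^ 2 / 8 := by positivity
    linarith
  have h5 : Real.exp (-(b / 2 * r)) = Real.exp (b / 2 * r) * Real.exp (-(b * r)) := by
    rw [← Real.exp_add]
    congr 1
    ring
  rw [h5, ← mul_assoc]
  exact mul_le_mul_of_nonneg_right h2 (Real.exp_pos _).le

theorem LWsec (h0 : S_LWD) (e : (E N × E d) ≃ₗ[ℝ] E n) {w : E n → ℝ} (hw : LW w) (t : E d)
    (hp : 0 < ∫ x : E N, w (e (x, t))) : LW fun x : E N => w (e (x, t)) := by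
  obtain ⟨C, b, hC, hb, hdec⟩ := dec h0 e hw
  obtain ⟨B, hB⟩ := hw.bdd
  refine ⟨⟨fun x => hw.adm.nonneg _, ?_, hp, sec_meas e hw t⟩, ?_, fun c hc => ?_, B, fun x => hB _⟩
  · refine Integrable.mono' ((exp_int N (b := b / 2) (by positivity)).const_mul
      (C * (1 + 8 / b ^ 2))) ?_ (Eventually.of_forall fun x => ?_)
    · refine Measurable.aestronglyMeasurable (Measurable.mul (by fun_prop) (sec_meas e hw t))
    · have hn : 0 ≤ w (e (x, t)) := hw.adm.nonneg _
      rw [Real.norm_of_nonneg (by positivity)]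
      calc (1 + ‖x‖ ^ 2) * w (e (x, t)) ≤ (1 + ‖x‖ ^ 2) * (C * Real.exp (-(b * ‖x‖))) :=
            mul_le_mul_of_nonneg_left (hdec x t) (by positivity)
        _ = C * ((1 + ‖x‖ ^ 2) * Real.exp (-(b * ‖x‖))) := by ring
        _ ≤ C * ((1 + 8 / b ^ 2) * Real.exp (-(b / 2 * ‖x‖))) :=
            mul_le_mul_of_nonneg_left (quad_exp hb (norm_nonneg x)) hC.le
        _ = _ := by ring
  · intro x y s hs0 hs1
    have h1 := hw.lc (e (x, t)) (e (y, t)) s hs0 hs1
    have h2 : (1 - s) • e (x, t) + s • e (y, t) = e ((1 - s) • x + s • y, t) := by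
      rw [← map_smul, ← map_smul, ← map_add]
      congr 1
      refine Prod.ext rfl ?_
      change (1 - s) • t + s • t = t
      rw [← add_smul, sub_add_cancel, one_smul]
    rw [h2] at h1
    exact h1
  · have hK := hw.comp c hc
    have h1 : Continuous fun z : E n => (e.symm z).1 :=
      continuous_fst.comp e.symm.toContinuousLinearEquiv.continuous
    have h2 : IsCompact ((fun z : E n => (e.symm z).1) '' {z | c ≤ w z}) := hK.image h1
    refine h2.of_isClosed_subset ?_ ?_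
    · exact hK.isClosed.preimage (e_cont e t)
    · intro x hx
      exact ⟨e (x, t), hx, by simp⟩

theorem m_lc (h0 : S_LWD) (e : (E N × E d) ≃ₗ[ℝ] E n) {w : E n → ℝ} (hw : LW w) :
    LCn fun t : E d => ∫ x : E N, w (e (x, t)) := by
  intro t u s hs0 hs1
  have hm : ∀ t : E d, 0 ≤ ∫ x : E N, w (e (x, t)) := fun t =>
    integral_nonneg fun x => hw.adm.nonneg _
  have key := Pool.Agent.H212R2.KLS.PL (volume : Measure (E N)) s hs0 hs1
    (fun x => ENNReal.ofReal (w (e (x, t)))) (fun x => ENNReal.ofReal (w (e (x, u))))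
    (fun x => ENNReal.ofReal (w (e (x, (1 - s) • t + s • u))))
    (sec_meas e hw t).ennreal_ofReal (sec_meas e hw u).ennreal_ofReal
    (sec_meas e hw _).ennreal_ofReal (fun x y => by
      have h1 := hw.lc (e (x, t)) (e (y, u)) s hs0 hs1
      have h2 : (1 - s) • e (x, t) + s • e (y, u) =
          e ((1 - s) • x + s • y, (1 - s) • t + s • u) := by
        rw [← map_smul, ← map_smul, ← map_add]
        rfl
      rw [h2] at h1
      rw [ENNReal.ofReal_rpow_of_nonneg (hw.adm.nonneg _) (by linarith),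
        ENNReal.ofReal_rpow_of_nonneg (hw.adm.nonneg _) hs0.le,
        ← ENNReal.ofReal_mul (Real.rpow_nonneg (hw.adm.nonneg _) _)]
      exact ENNReal.ofReal_le_ofReal h1)
  have hi : ∀ t : E d, ∫⁻ x : E N, ENNReal.ofReal (w (e (x, t))) =
      ENNReal.ofReal (∫ x : E N, w (e (x, t))) := fun t =>
    (ofReal_integral_eq_lintegral_ofReal (sec_int h0 e hw t)
      (Eventually.of_forall fun x => hw.adm.nonneg _)).symm
  rw [hi, hi, hi, ENNReal.ofReal_rpow_of_nonneg (hm t) (by linarith),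
    ENNReal.ofReal_rpow_of_nonneg (hm u) hs0.le,
    ← ENNReal.ofReal_mul (Real.rpow_nonneg (hm t) _)] at key
  exact (ENNReal.ofReal_le_ofReal_iff (hm _)).1 key

theorem base (h0 : S_LWD) (e : (E N × E d) ≃ₗ[ℝ] E n) {w : E n → ℝ} {φ : E d → ℝ} (hw : LW w)
    (hφ0 : ∀ t, 0 ≤ φ t) (hφ : LCn φ) (hg : LW fun z => w z * φ (e.symm z).2) :
    ∃ (B : Set (E d)) (t₁ : E d) (c : ℝ), IsOpen B ∧ t₁ ∈ B ∧ 0 < c ∧
      ∀ t ∈ B, 0 < φ t ∧ c ≤ ∫ x : E N, w (e (x, t)) := by
  obtain ⟨D, hD⟩ : ∃ D : ℕ → Set (E n), D = fun k : ℕ => {z : E n | 1 / ((k : ℝ) + 1) ≤ w z ∧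
    0 < φ (e.symm z).2} := ⟨_, rfl⟩
  have hpos : volume {z | 0 < w z * φ (e.symm z).2} ≠ 0 := by
    intro h2
    have h1 := hg.adm.pos
    have h3 : ∀ᵐ z, w z * φ (e.symm z).2 = 0 := by
      rw [ae_iff]
      refine measure_mono_null (fun z hz => ?_) h2
      exact lt_of_le_of_ne (hg.adm.nonneg z) (Ne.symm hz)
    have h4 : ∫ z, w z * φ (e.symm z).2 = 0 := integral_eq_zero_of_ae h3
    linarith
  have hk : ∃ k, volume (D k) ≠ 0 := by
    by_contra hcon
    push Not at hcon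
    have h1 : volume (⋃ k, D k) = 0 := measure_iUnion_null hcon
    refine hpos (measure_mono_null (fun z hz => ?_) h1)
    have hz' : 0 < w z * φ (e.symm z).2 := hz
    have hw0 : 0 < w z := (hw.adm.nonneg z).lt_of_ne fun h => by
      rw [← h, zero_mul] at hz'
      exact lt_irrefl _ hz'
    have hφz : 0 < φ (e.symm z).2 := (hφ0 _).lt_of_ne fun h => by
      rw [← h, mul_zero] at hz'
      exact lt_irrefl _ hz'
    obtain ⟨k, hk⟩ := exists_nat_one_div_lt hw0
    refine mem_iUnion.2 ⟨k, ?_⟩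
    rw [hD]
    exact ⟨hk.le, hφz⟩
  obtain ⟨k, hk⟩ := hk
  have hk0 : (0 : ℝ) < 1 / ((k : ℝ) + 1) := by positivity
  have hconv : Convex ℝ (D k) := by
    rw [hD]
    intro z hz z' hz' a b ha hb hab
    rcases ha.eq_or_lt with h | ha
    · rw [← h, zero_add] at hab
      rw [← h, hab]; simpa using hz'
    rcases hb.eq_or_lt with h | hb
    · rw [← h, add_zero] at hab
      rw [← h, hab]; simpa using hz
    have ha' : a = 1 - b := by linarith
    rw [ha']
    have hb1 : b < 1 := by linarith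
    constructor
    · refine le_trans ?_ (hw.lc z z' b hb hb1)
      calc 1 / ((k : ℝ) + 1) = (1 / ((k : ℝ) + 1)) ^ (1 - b) * (1 / ((k : ℝ) + 1)) ^ b := by
            rw [← Real.rpow_add hk0, sub_add_cancel, Real.rpow_one]
        _ ≤ _ := mul_le_mul (Real.rpow_le_rpow hk0.le hz.1 (by linarith))
            (Real.rpow_le_rpow hk0.le hz'.1 hb.le) (Real.rpow_nonneg hk0.le _)
            (Real.rpow_nonneg (hw.adm.nonneg z) _)
    · have h1 := (lc_log hφ hb hb1 hz.2 hz'.2).1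
      have h2 : (e.symm ((1 - b) • z + b • z')).2 = (1 - b) • (e.symm z).2 + b • (e.symm z').2 := by
        rw [map_add, map_smul, map_smul]
        rfl
      change 0 < φ (e.symm ((1 - b) • z + b • z')).2
      rw [h2]
      exact h1
  have hint : (interior (D k)).Nonempty := by
    by_contra hcon
    rw [Set.not_nonempty_iff_eq_empty] at hcon
    apply hk
    refine measure_mono_null ?_ (hconv.addHaar_frontier volume)
    intro z hz
    rw [frontier, hcon, diff_empty]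
    exact subset_closure hz
  obtain ⟨z₁, hz₁⟩ := hint
  have hop : IsOpen {p : E N × E d | e p ∈ interior (D k)} :=
    isOpen_interior.preimage e.toContinuousLinearEquiv.continuous
  have hmem : ((e.symm z₁).1, (e.symm z₁).2) ∈ {p : E N × E d | e p ∈ interior (D k)} := by
    simpa using hz₁
  obtain ⟨U, V, hU, hV, hxU, htV, hUV⟩ := isOpen_prod_iff.1 hop _ _ hmem
  obtain ⟨U', hU'⟩ : ∃ U', U' = U ∩ Metric.ball (e.symm z₁).1 1 := ⟨_, rfl⟩
  have hU'o : IsOpen U' := by rw [hU']; exact hU.inter Metric.isOpen_ball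
  have hU'n : U'.Nonempty := ⟨(e.symm z₁).1, by rw [hU']; exact ⟨hxU, Metric.mem_ball_self one_pos⟩⟩
  have hU'f : volume U' ≠ ⊤ := by
    rw [hU']
    exact ((measure_mono inter_subset_right).trans_lt measure_ball_lt_top).ne
  have hU'p : 0 < (volume U').toReal :=
    ENNReal.toReal_pos (hU'o.measure_pos volume hU'n).ne' hU'f
  have hmem2 : ∀ x ∈ U', ∀ t ∈ V, 1 / ((k : ℝ) + 1) ≤ w (e (x, t)) ∧ 0 < φ t := by
    intro x hx t ht
    rw [hU'] at hx
    have h1 : e (x, t) ∈ D k := interior_subset (hUV ⟨hx.1, ht⟩)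
    rw [hD] at h1
    have h2 : (e.symm (e (x, t))).2 = t := by simp
    have h3 := h1.2
    rw [h2] at h3
    exact ⟨h1.1, h3⟩
  refine ⟨V, (e.symm z₁).2, (volume U').toReal * (1 / ((k : ℝ) + 1)), hV, htV, by positivity,
    fun t ht => ?_⟩
  obtain ⟨x₀, hx₀⟩ := hU'n
  refine ⟨(hmem2 x₀ hx₀ t ht).2, ?_⟩
  have hi := sec_int h0 e hw t
  calc (volume U').toReal * (1 / ((k : ℝ) + 1)) = ∫ x in U', (1 / ((k : ℝ) + 1) : ℝ) := by
        rw [setIntegral_const, smul_eq_mul]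
        rfl
    _ ≤ ∫ x in U', w (e (x, t)) := by
        refine setIntegral_mono_on (integrableOn_const hU'f) hi.integrableOn
          hU'o.measurableSet fun x hx => (hmem2 x hx t ht).1
    _ ≤ ∫ x : E N, w (e (x, t)) :=
        setIntegral_le_integral hi (Eventually.of_forall fun x => hw.adm.nonneg _)

end sec

/-! ### Constant factors -/

theorem VW_mul {n : ℕ} {w : E n → ℝ} {c : ℝ} (hc : c ≠ 0) (v : E n → ℝ) :
    VW (fun x => w x * c) v = VW w v := by
  have h : ∀ v : E n → ℝ, EW (fun x => w x * c) v = EW w v := by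
    intro v
    unfold EW
    have h1 : ∫ x, v x * (w x * c) = (∫ x, v x * w x) * c := by
      rw [← integral_mul_const]
      exact integral_congr_ae (Eventually.of_forall fun x => by ring)
    rw [h1, integral_mul_const, mul_div_mul_right _ _ hc]
  unfold VW
  rw [h, h]

theorem ccw_mul {n : ℕ} {κ δ c : ℝ} {w : E n → ℝ} (hc : c ≠ 0) (h : CcW κ δ w) :
    CcW κ δ fun x => w x * c := by
  intro k hk T s hs hθ v hv hb hf
  rw [VW_mul hc]
  refine h k hk T s hs (fun θ hθ' => ?_) v hv hb hf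
  rw [← VW_mul hc]
  exact hθ θ hθ'

/-- X5 -/
theorem t_WTL (h0 : S_LWD) (h1 : S_WSE) (h2 : S_WEX) : S_WTL := by
  intro d δ hδ
  obtain ⟨δ₁, hδ₁, H2⟩ := h2 d (1 / 2) δ (by norm_num) hδ
  obtain ⟨δ', hδ', H1⟩ := h1 d (1 / 2) (by norm_num)
  refine ⟨δ', hδ', fun κ' hκ' => ?_⟩
  obtain ⟨κ₁, hκ₁, G1⟩ := H1 κ' δ₁ hκ' hδ₁
  obtain ⟨κ, hκ, G2⟩ := H2 κ₁ hκ₁
  refine ⟨κ, hκ, fun N n e w φ hw hφ0 hφ hg htilt => ?_⟩
  obtain ⟨B, t₁, c, hBo, ht₁, hc, hB⟩ := base h0 e hw hφ0 hφ hg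
  obtain ⟨m, hm⟩ : ∃ m : E d → ℝ, m = fun t => ∫ x : E N, w (e (x, t)) := ⟨_, rfl⟩
  have hm0 : ∀ t, 0 ≤ m t := fun t => by
    rw [hm]
    exact integral_nonneg fun x => hw.adm.nonneg _
  have hmg : ∀ t, ∫ x : E N, (w (e (x, t)) * φ (e.symm (e (x, t))).2) = m t * φ t := by
    intro t
    have h3 : ∀ x : E N, (e.symm (e (x, t))).2 = t := fun x => by simp
    simp only [h3]
    rw [integral_mul_const, hm]
  obtain ⟨M, hM⟩ := sec_bdd h0 e hg
  have hM' : ∀ t, m t * φ t ≤ M := fun t => by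
    rw [← hmg]
    exact hM t
  -- the supremum
  obtain ⟨S, hSd⟩ : ∃ S, S = sSup (Set.range fun t => m t * φ t) := ⟨_, rfl⟩
  have hbdd : BddAbove (Set.range fun t => m t * φ t) := ⟨M, by
    rintro _ ⟨t, rfl⟩
    exact hM' t⟩
  have hle : ∀ t, m t * φ t ≤ S := fun t => by
    rw [hSd]
    exact le_csSup hbdd ⟨t, rfl⟩
  have hS : 0 < S := by
    obtain ⟨h3, h4⟩ := hB t₁ ht₁
    have h5 : 0 < m t₁ := by
      rw [hm]
      exact lt_of_lt_of_le hc h4
    exact lt_of_lt_of_le (mul_pos h5 h3) (hle t₁)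
  obtain ⟨t₀, ht₀⟩ : ∃ t₀, S / 2 < m t₀ * φ t₀ := by
    have h3 : S / 2 < sSup (Set.range fun t => m t * φ t) := by
      rw [← hSd]
      linarith
    obtain ⟨_, ⟨t, rfl⟩, h4⟩ := exists_lt_of_lt_csSup (Set.range_nonempty _) h3
    exact ⟨t, h4⟩
  have hp : 0 < m t₀ * φ t₀ := by linarith
  have hmp : 0 < m t₀ := (hm0 t₀).lt_of_ne fun h => by
    rw [← h, zero_mul] at hp
    exact lt_irrefl _ hp
  have hφp : 0 < φ t₀ := (hφ0 t₀).lt_of_ne fun h => by
    rw [← h, mul_zero] at hp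
    exact lt_irrefl _ hp
  -- the affine function
  have hmlc : LCn m := by
    rw [hm]
    exact m_lc h0 e hw
  obtain ⟨a, b, hab1, hab2⟩ := sandwich hS hm0 hφ0 hmlc hφ hle hBo ht₁ hc fun t ht => by
    rw [hm]
    exact hB t ht
  -- the tilt
  obtain ⟨hLa, hCa⟩ := htilt (-a)
  have hsa : ∀ (x : E N) (t : E d), w (e (x, t)) * Real.exp ⟪-a, (e.symm (e (x, t))).2⟫_ℝ =
      w (e (x, t)) * Real.exp (-⟪a, t⟫_ℝ) := by
    intro x t
    have h3 : (e.symm (e (x, t))).2 = t := by simp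
    rw [h3, inner_neg_left]
  have hma : ∀ t, ∫ x : E N, w (e (x, t)) * Real.exp ⟪-a, (e.symm (e (x, t))).2⟫_ℝ =
      m t * Real.exp (-⟪a, t⟫_ℝ) := by
    intro t
    simp only [hsa]
    rw [integral_mul_const, hm]
  have hLat : LW fun x : E N => w (e (x, t₀)) * Real.exp ⟪-a, (e.symm (e (x, t₀))).2⟫_ℝ :=
    LWsec h0 e hLa t₀ (by
      rw [hma]
      positivity)
  have hup : ∀ t, m t * Real.exp (-⟪a, t⟫_ℝ) ≤ Real.exp b := by
    intro t
    calc m t * Real.exp (-⟪a, t⟫_ℝ) ≤ Real.exp (b + ⟪a, t⟫_ℝ) * Real.exp (-⟪a, t⟫_ℝ) :=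
          mul_le_mul_of_nonneg_right (hab1 t) (Real.exp_pos _).le
      _ = Real.exp b := by
          rw [← Real.exp_add]
          congr 1
          ring
  have hlo : Real.exp b ≤ 2 * (m t₀ * Real.exp (-⟪a, t₀⟫_ℝ)) := by
    have h3 : φ t₀ * Real.exp (b + ⟪a, t₀⟫_ℝ) ≤ φ t₀ * (2 * m t₀) := by
      refine (hab2 t₀).trans ?_
      linarith
    have h4 : Real.exp (b + ⟪a, t₀⟫_ℝ) ≤ 2 * m t₀ := le_of_mul_le_mul_left h3 hφp
    calc Real.exp b = Real.exp (b + ⟪a, t₀⟫_ℝ) * Real.exp (-⟪a, t₀⟫_ℝ) := by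
          rw [← Real.exp_add]
          congr 1
          ring
      _ ≤ 2 * m t₀ * Real.exp (-⟪a, t₀⟫_ℝ) :=
          mul_le_mul_of_nonneg_right h4 (Real.exp_pos _).le
      _ = _ := by ring
  have hC1 : CcW κ₁ δ₁ fun x : E N => w (e (x, t₀)) * Real.exp ⟪-a, (e.symm (e (x, t₀))).2⟫_ℝ := by
    refine G1 N n e _ t₀ hLa hLat (fun t' => ?_) hCa
    rw [hma, hma]
    have h3 := hup t'
    linarith
  have hC2 : CcW κ₁ δ₁ fun x : E N => w (e (x, t₀)) * φ (e.symm (e (x, t₀))).2 := by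
    have h3 : (fun x : E N => w (e (x, t₀)) * φ (e.symm (e (x, t₀))).2) = fun x : E N =>
        (w (e (x, t₀)) * Real.exp ⟪-a, (e.symm (e (x, t₀))).2⟫_ℝ) *
          (φ t₀ * Real.exp ⟪a, t₀⟫_ℝ) := by
      funext x
      rw [hsa]
      have h4 : (e.symm (e (x, t₀))).2 = t₀ := by simp
      have h5 : Real.exp (-⟪a, t₀⟫_ℝ) * Real.exp ⟪a, t₀⟫_ℝ = 1 := by
        rw [← Real.exp_add, neg_add_cancel, Real.exp_zero]
      rw [h4]
      calc w (e (x, t₀)) * φ t₀ = w (e (x, t₀)) * φ t₀ * 1 := (mul_one _).symm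
        _ = _ := by
          rw [← h5]
          ring
    rw [h3]
    exact ccw_mul (by positivity) hC1
  have hLgt : LW fun x : E N => w (e (x, t₀)) * φ (e.symm (e (x, t₀))).2 :=
    LWsec h0 e hg t₀ (by
      rw [hmg]
      exact hp)
  refine G2 N n e _ t₀ hg hLgt (fun t' => ?_) hC2
  rw [hmg, hmg]
  have h3 := hle t'
  linarith

end Pool.Agent.N711.KM
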